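import Mathlib

set_option autoImplicit false

namespace Pool.Agent.Helper581.CP

open Equiv

/-- the alphabet -/
abbrev X := Fin 5

/-- vertices of the 5-regular rooted tree, root-first words -/
abbrev W := List X

/-- the alternating group -/
abbrev A := alternatingGroup (Fin 5)

/-- `node s` fixes the first letter and acts by `s x` below the letter `x`. -/
def nodeFun (s : X → Perm W) : W → W
  | [] => []
  | x :: v => x :: s x v

def node : (X → Perm W) →* Perm W where
  toFun s :=
    { toFun := nodeFun s
      invFun := nodeFun (fun x => (s x)⁻¹)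
      left_inv := by intro v; cases v <;> simp [nodeFun]
      right_inv := by intro v; cases v <;> simp [nodeFun] }
  map_one' := by
    ext v : 1
    cases v <;> simp [nodeFun]
  map_mul' s t := by
    ext v : 1
    cases v <;> simp [nodeFun]

@[simp] theorem node_nil (s : X → Perm W) : node s [] = [] := rfl

@[simp] theorem node_cons (s : X → Perm W) (x : X) (v : W) : node s (x :: v) = x :: s x v := rfl

theorem node_injective : Function.Injective node := by
  intro s t h
  funext x
  ext v : 1
  have := congrArg (fun g : Perm W => g (x :: v)) h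
  simpa using this

/-- rooted permutations -/
def rootFun (a : Perm X) : W → W
  | [] => []
  | x :: v => a x :: v

def root : Perm X →* Perm W where
  toFun a :=
    { toFun := rootFun a
      invFun := rootFun a⁻¹
      left_inv := by intro v; cases v <;> simp [rootFun]
      right_inv := by intro v; cases v <;> simp [rootFun] }
  map_one' := by
    ext v : 1
    cases v <;> simp [rootFun]
  map_mul' s t := by
    ext v : 1
    cases v <;> simp [rootFun]

@[simp] theorem root_nil (a : Perm X) : root a [] = [] := rfl

@[simp] theorem root_cons (a : Perm X) (x : X) (v : W) : root a (x :: v) = a x :: v := rfl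

/-- rooted even permutations -/
def rt : A →* Perm W := root.comp (alternatingGroup (Fin 5)).subtype

@[simp] theorem rt_nil (a : A) : rt a [] = [] := rfl

@[simp] theorem rt_cons (a : A) (x : X) (v : W) : rt a (x :: v) = a.1 x :: v := rfl

theorem root_injective : Function.Injective root := by
  intro a b h
  ext x : 1
  have := congrArg (fun g : Perm W => g [x]) h
  simpa using this

theorem rt_injective : Function.Injective rt :=
  root_injective.comp Subtype.val_injective

theorem root_conj_node (a : Perm X) (s : X → Perm W) :
    root a * node s * (root a)⁻¹ = node (fun x => s (a⁻¹ x)) := by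
  rw [mul_inv_eq_iff_eq_mul]
  ext v : 1
  cases v <;> simp

theorem rt_conj_node (a : A) (s : X → Perm W) :
    rt a * node s * (rt a)⁻¹ = node (fun x => s (a.1⁻¹ x)) :=
  root_conj_node a.1 s

/-- `dl x g` acts as `g` below the letter `x` and trivially elsewhere. -/
def dl (x : X) : Perm W →* Perm W := node.comp (MonoidHom.mulSingle (fun _ : X => Perm W) x)

theorem dl_eq (x : X) (g : Perm W) : dl x g = node (Pi.mulSingle x g) := rfl

@[simp] theorem dl_nil (x : X) (g : Perm W) : dl x g [] = [] := rfl

theorem dl_cons_same (x : X) (g : Perm W) (v : W) : dl x g (x :: v) = x :: g v := by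
  simp [dl_eq]

theorem dl_cons_ne {x y : X} (h : y ≠ x) (g : Perm W) (v : W) : dl x g (y :: v) = y :: v := by
  simp [dl_eq, h]

theorem dl_conj (a : A) (x : X) (g : Perm W) : rt a * dl x g * (rt a)⁻¹ = dl (a.1 x) g := by
  rw [dl_eq, rt_conj_node, dl_eq]
  congr 1
  funext y
  by_cases h : y = a.1 x
  · subst h
    simp
  · have : a.1⁻¹ y ≠ x := by
      intro hc
      apply h
      rw [← hc]
      simp
    rw [Pi.mulSingle_eq_of_ne this, Pi.mulSingle_eq_of_ne h]

theorem node_eq_prod (s : X → Perm W) :
    node s = dl 0 (s 0) * dl 1 (s 1) * dl 2 (s 2) * dl 3 (s 3) * dl 4 (s 4) := by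
  simp only [dl_eq, ← map_mul]
  congr 1
  funext x
  fin_cases x <;> simp [Pi.mul_apply]

/-- The coding of the halting problem: program number `(unpair n).1` has not halted within `n`
steps. -/
def live (n : ℕ) : Bool :=
  (Nat.Partrec.Code.evaln n (Denumerable.ofNat Nat.Partrec.Code (Nat.unpair n).1) 0).isNone

/-- the transposition used to twist -/
def tau : Perm X := Equiv.swap 0 1

/-- conjugation by `tau` on even permutations -/
def tw : A →* A := (MulAut.conjNormal tau : MulAut A).toMonoidHom

theorem tw_coe (a : A) : ((tw a : A) : Perm X) = tau * a.1 * tau⁻¹ := rfl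

theorem tw_tw (a : A) : tw (tw a) = a := by
  ext1
  rw [tw_coe, tw_coe]
  have h : tau * tau = 1 := by simp [tau]
  have h' : tau⁻¹ = tau := by simp [tau]
  rw [h']
  calc tau * (tau * a.1 * tau) * tau = (tau * tau) * a.1 * (tau * tau) := by group
    _ = a.1 := by rw [h]; simp

/-- The active value at level `n`. -/
def act (n : ℕ) (f : ℕ → A) : A := if live n then f (Nat.unpair n).1 else 1

theorem act_one (n : ℕ) : act n 1 = 1 := by simp [act]

theorem act_mul (n : ℕ) (f g : ℕ → A) : act n (f * g) = act n f * act n g := by
  unfold act; split_ifs <;> simp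

/-- Directed elements, as functions. -/
def DFun : W → ℕ → A → (ℕ → A) → W
  | [], _, _, _ => []
  | x :: v, n, e, f => x ::
      (if x = 0 then DFun v (n + 1) e f
      else if x = 1 then DFun v (n + 1) 1 (Pi.mulSingle n e)
      else if x = 2 then rt e v
      else if x = 3 then rt (act n f) v
      else rt (tw (act n f)) v)

theorem DFun_mul (v : W) : ∀ (n : ℕ) (e e' : A) (f f' : ℕ → A),
    DFun (DFun v n e' f') n e f = DFun v n (e * e') (f * f') := by
  induction v with
  | nil => intros; rfl
  | cons x v ih =>
    intro n e e' f f'
    simp only [DFun]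
    congr 1
    split_ifs
    · exact ih _ _ _ _ _
    · rw [ih, mul_one, Pi.mulSingle_mul]
    · rw [map_mul]; rfl
    · rw [act_mul, map_mul]; rfl
    · rw [act_mul, map_mul, map_mul]; rfl

theorem DFun_one (v : W) : ∀ n : ℕ, DFun v n 1 1 = v := by
  induction v with
  | nil => intros; rfl
  | cons x v ih =>
    intro n
    simp only [DFun, Pi.mulSingle_one, ih, act_one, map_one]
    simp

/-- Directed elements. -/
def D (n : ℕ) : A × (ℕ → A) →* Perm W where
  toFun p :=
    { toFun := fun v => DFun v n p.1 p.2
      invFun := fun v => DFun v n p.1⁻¹ p.2⁻¹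
      left_inv := by intro v; simp only [DFun_mul]; simp [DFun_one]
      right_inv := by intro v; simp only [DFun_mul]; simp [DFun_one] }
  map_one' := by
    ext v : 1
    exact DFun_one v n
  map_mul' p q := by
    ext v : 1
    exact (DFun_mul v n p.1 q.1 p.2 q.2).symm

/-- The sections of the directed element `D n (e, f)`. -/
def secD (n : ℕ) (e : A) (f : ℕ → A) (x : X) : Perm W :=
  if x = 0 then D (n + 1) (e, f)
  else if x = 1 then D (n + 1) (1, Pi.mulSingle n e)
  else if x = 2 then rt e
  else if x = 3 then rt (act n f)
  else rt (tw (act n f))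

theorem D_eq_node (n : ℕ) (e : A) (f : ℕ → A) : D n (e, f) = node (secD n e f) := by
  ext v : 1
  cases v with
  | nil => rfl
  | cons x v =>
    change DFun (x :: v) n e f = x :: secD n e f x v
    simp only [DFun, secD]
    congr 1
    split_ifs <;> rfl

@[simp] theorem D_nil (n : ℕ) (p : A × (ℕ → A)) : D n p [] = [] := rfl

theorem D_cons (n : ℕ) (e : A) (f : ℕ → A) (x : X) (v : W) :
    D n (e, f) (x :: v) = x :: secD n e f x v := by
  rw [D_eq_node]; rfl

end Pool.Agent.Helper581.CP
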