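import Pool.Agent.Helper581.CP.Struct

set_option autoImplicit false

namespace Pool.Agent.Helper581.CP

open Equiv

/-- `dpath v g` acts as `g` below the vertex `v` and trivially elsewhere. -/
def dpath : W → Perm W →* Perm W
  | [] => MonoidHom.id _
  | x :: v => (dl x).comp (dpath v)

theorem dpath_mem (v : W) : ∀ {n : ℕ} {g : Perm W}, g ∈ Del (n + v.length) → dpath v g ∈ Del n := by
  induction v with
  | nil => intro n g hg; exact hg
  | cons x v ih =>
    intro n g hg
    apply dl_mem
    apply ih
    have : n + 1 + v.length = n + (x :: v).length := by simp; omega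
    rw [this]
    exact hg

theorem dpath_append (v : W) (g : Perm W) (u : W) : dpath v g (v ++ u) = v ++ g u := by
  induction v with
  | nil => rfl
  | cons x v ih =>
    change dl x (dpath v g) (x :: (v ++ u)) = _
    rw [dl_cons_same, ih]
    rfl

theorem dpath_self (v : W) (g : Perm W) (hg : g [] = []) : dpath v g v = v := by
  have := dpath_append v g []
  rw [hg] at this
  simpa using this

theorem dpath_not_prefix (v : W) (g : Perm W) : ∀ w : W, ¬ v <+: w → dpath v g w = w := by
  induction v with
  | nil => intro w h; exact absurd (List.nil_prefix) h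
  | cons x v ih =>
    intro w h
    cases w with
    | nil => rfl
    | cons y w =>
      by_cases hxy : y = x
      · subst hxy
        change dl y (dpath v g) (y :: w) = _
        rw [dl_cons_same, ih w (fun hc => h ((List.prefix_cons_inj y).2 hc))]
      · exact dl_cons_ne hxy _ _

theorem trans_Del (v : W) : ∀ (n : ℕ) (w : W), v.length = w.length → ∃ g ∈ Del n, g v = w := by
  induction v with
  | nil =>
    intro n w h
    cases w with
    | nil => exact ⟨1, one_mem _, rfl⟩
    | cons y w => simp at h
  | cons x v ih =>
    intro n w h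
    cases w with
    | nil => simp at h
    | cons y w =>
      obtain ⟨a, ha⟩ := exists_move x y
      obtain ⟨g, hg, hgv⟩ := ih (n + 1) w (by simpa using h)
      refine ⟨dl y g * rt a, mul_mem (dl_mem y hg) (rt_mem n a), ?_⟩
      rw [Perm.mul_apply, rt_cons, ha, dl_cons_same, hgv]

theorem Del_nil {n : ℕ} {g : Perm W} (hg : g ∈ Del n) : g [] = [] := by
  obtain ⟨a, s, -, rfl⟩ := sections hg
  simp

theorem Del_cons {n : ℕ} {g : Perm W} (hg : g ∈ Del n) :
    ∃ (a : A) (s : X → Perm W), (∀ x, s x ∈ Del (n + 1)) ∧
      ∀ (x : X) (v : W), g (x :: v) = a.1 x :: s x v := by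
  obtain ⟨a, s, hs, rfl⟩ := sections hg
  exact ⟨a, s, hs, fun x v => by simp⟩

theorem Del_length (v : W) : ∀ {n : ℕ} {g : Perm W}, g ∈ Del n → (g v).length = v.length := by
  induction v with
  | nil => intro n g hg; rw [Del_nil hg]
  | cons x v ih =>
    intro n g hg
    obtain ⟨a, s, hs, h⟩ := Del_cons hg
    rw [h, List.length_cons, List.length_cons, ih (hs x)]

theorem Del_dropLast (v : W) : ∀ {n : ℕ} {g : Perm W}, g ∈ Del n →
    (g v).dropLast = g v.dropLast := by
  induction v with
  | nil => intro n g hg; simp [Del_nil hg]
  | cons x v ih =>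
    intro n g hg
    obtain ⟨a, s, hs, h⟩ := Del_cons hg
    rw [h]
    cases v with
    | nil =>
      rw [Del_nil (hs x)]
      simp [Del_nil hg]
    | cons y v =>
      have h1 : s x (y :: v) ≠ [] := by
        intro hc
        have := Del_length (y :: v) (hs x)
        rw [hc] at this
        simp at this
      have h2 : (x :: y :: v).dropLast = x :: (y :: v).dropLast := rfl
      rw [List.dropLast_cons_of_ne_nil h1, ih (hs x), h2, h]

/-- Sections along a path. -/
theorem Del_path (v : W) : ∀ {n : ℕ} {g : Perm W}, g ∈ Del n →
    ∃ (w : W) (s : Perm W), w.length = v.length ∧ s ∈ Del (n + v.length) ∧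
      ∀ u : W, g (v ++ u) = w ++ s u := by
  induction v with
  | nil => intro n g hg; exact ⟨[], g, rfl, hg, fun u => rfl⟩
  | cons x v ih =>
    intro n g hg
    obtain ⟨a, s, hs, h⟩ := Del_cons hg
    obtain ⟨w, t, hw, ht, h2⟩ := ih (hs x)
    refine ⟨a.1 x :: w, t, by simp [hw], ?_, ?_⟩
    · have : n + (x :: v).length = n + 1 + v.length := by simp; omega
      rw [this]
      exact ht
    · intro u
      rw [List.cons_append, h, h2]
      rfl

theorem Del_path_fix {n : ℕ} {g : Perm W} (hg : g ∈ Del n) {v : W} (hv : g v = v) :
    ∃ s : Perm W, s ∈ Del (n + v.length) ∧ ∀ u : W, g (v ++ u) = v ++ s u := by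
  obtain ⟨w, s, hw, hs, h⟩ := Del_path v hg
  refine ⟨s, hs, ?_⟩
  have h1 := h []
  rw [List.append_nil, hv, Del_nil hs, List.append_nil] at h1
  intro u
  rw [h u, ← h1]

/-- The group. -/
abbrev G := Del 0

theorem smul_eq (g : G) (w : W) : g • w = g.1 w := rfl

/-- level stabilizer as a kernel -/
abbrev Lev (i : ℕ) := {v : W // v.length = i}

instance (i : ℕ) : Finite (Lev i) := (List.finite_length_eq X i).to_subtype

def res (i : ℕ) : G →* Perm (Lev i) where
  toFun g :=
    { toFun := fun v => ⟨g.1 v.1, by rw [Del_length v.1 g.2, v.2]⟩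
      invFun := fun v => ⟨g.1⁻¹ v.1, by
        have := Del_length v.1 (g⁻¹).2
        exact this.trans v.2⟩
      left_inv := fun v => by simp
      right_inv := fun v => by simp }
  map_one' := by ext v : 2; simp
  map_mul' g h := by ext v : 2; simp

theorem mem_ker_res {i : ℕ} {g : G} :
    g ∈ (res i).ker ↔ ∀ v : W, v.length = i → g.1 v = v := by
  rw [MonoidHom.mem_ker]
  constructor
  · intro h v hv
    have := congrArg (fun f => (f ⟨v, hv⟩ : Lev i).1) h
    simpa [res] using this
  · intro h
    ext v : 2
    exact h v.1 v.2

theorem ker_res_le {i : ℕ} {g : G} (h : g ∈ (res i).ker) (v : W) (hv : v.length ≤ i) :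
    g.1 v = v := by
  rw [mem_ker_res] at h
  obtain ⟨k, hk⟩ : ∃ k, i = v.length + k := ⟨i - v.length, by omega⟩
  subst hk
  clear hv
  induction k generalizing v with
  | zero => exact h v rfl
  | succ k ih =>
    have := ih (v ++ [0]) (by
      intro w hw
      apply h
      simp at hw
      omega)
    have h2 := Del_dropLast (v ++ [0]) g.2
    rw [this] at h2
    simpa using h2.symm

theorem dropLast_iterate_append (v u : W) : List.dropLast^[u.length] (v ++ u) = v := by
  induction u using List.reverseRecOn with
  | nil => simp
  | append_singleton u x ih =>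
    rw [List.length_append, List.length_singleton, Function.iterate_succ_apply]
    rw [← List.append_assoc, List.dropLast_concat]
    exact ih

/-- the generating set of the rigid level stabilizer -/
abbrev ristSet (n : ℕ) : Set G := {g : G | ∃ v : W, v.length = n ∧
  ∀ w : W, (¬ ∃ k : ℕ, List.dropLast^[k] w = v) → g • w = w}

theorem rist_aux (n : ℕ) (S : Finset W) (hS : ∀ v ∈ S, v.length = n) :
    ∀ g : G, g ∈ (res n).ker → (∀ x : W, (∀ v ∈ S, ¬ v <+: x) → g.1 x = x) →
      g ∈ Subgroup.closure (ristSet n) := by
  classical
  induction S using Finset.induction_on with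
  | empty =>
    intro g _ hx
    have : g = 1 := by
      ext x : 2
      exact hx x (by simp)
    rw [this]
    exact one_mem _
  | insert v S hvS ih =>
    intro g hg hx
    have hvn : v.length = n := hS v (Finset.mem_insert_self v S)
    have hgv : g.1 v = v := mem_ker_res.1 hg v hvn
    obtain ⟨s, hs, hsg⟩ := Del_path_fix g.2 hgv
    have hmem : dpath v s ∈ Del 0 := dpath_mem v hs
    set p : G := ⟨dpath v s, hmem⟩ with hp
    have ppos : ∀ x : W, v <+: x → p.1 x = g.1 x := by
      rintro x ⟨u, rfl⟩
      rw [hsg]
      exact dpath_append v s u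
    have pneg : ∀ x : W, ¬ v <+: x → p.1 x = x := fun x h => dpath_not_prefix v s x h
    have hp1 : p ∈ Subgroup.closure (ristSet n) := by
      apply Subgroup.subset_closure
      refine ⟨v, hvn, ?_⟩
      intro w hw
      rw [smul_eq]
      apply pneg
      rintro ⟨u, rfl⟩
      exact hw ⟨u.length, dropLast_iterate_append v u⟩
    have hp2 : p ∈ (res n).ker := by
      rw [mem_ker_res]
      intro w hw
      by_cases h : v <+: w
      · rw [ppos w h]
        exact mem_ker_res.1 hg w hw
      · exact pneg w h
    have key : p⁻¹ * g ∈ Subgroup.closure (ristSet n) := by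
      apply ih (fun u hu => hS u (Finset.mem_insert_of_mem hu))
      · exact mul_mem (inv_mem hp2) hg
      · intro x hxS
        rw [Subgroup.coe_mul, Perm.mul_apply, Subgroup.coe_inv, Perm.inv_eq_iff_eq]
        by_cases h : v <+: x
        · exact (ppos x h).symm
        · rw [pneg x h]
          apply hx
          intro u hu
          rcases Finset.mem_insert.1 hu with rfl | hu
          · exact h
          · exact hxS u hu
    have := mul_mem hp1 key
    simpa using this

theorem rist_finiteIndex (n : ℕ) : (Subgroup.closure (ristSet n)).FiniteIndex := by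
  have hle : (res n).ker ≤ Subgroup.closure (ristSet n) := by
    intro g hg
    refine rist_aux n (List.finite_length_eq X n).toFinset (by simp) g hg ?_
    intro x hx
    apply ker_res_le hg
    by_contra hlt
    apply hx (x.take n)
    · simp
      omega
    · exact List.take_prefix n x
  have : (res n).ker.FiniteIndex := Subgroup.finiteIndex_ker _
  exact Subgroup.finiteIndex_of_le hle

end Pool.Agent.Helper581.CP
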