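import Pool.Agent.Helper581.CP.Conj

set_option autoImplicit false

namespace Pool.Agent.Helper581.CP

open Equiv

noncomputable instance instPrimA : Primcodable A := Primcodable.ofEquiv _ (Fintype.equivFin A)

/-- states of the machine computing directed elements -/
abbrev St := Fin 4 × ℕ × ℕ × A

def sem : St → Perm W
  | (m, n, k, e) => if m = 0 then 1 else if m = 1 then rt e else if m = 2 then D n (e, 1)
      else T n k e

/-- activity of thread `k` at level `n` -/
def on (n k : ℕ) : Bool := live n && (Nat.unpair n).1 == k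

def outL (p : Fin 4 × A × X) : X := if p.1 = 1 then p.2.1.1 p.2.2 else p.2.2

def newMode (p : Fin 4 × X × Bool) : Fin 4 :=
  if p.1 = 0 then 0 else if p.1 = 1 then 0 else if p.1 = 2 then
    (if p.2.1 = 0 then 2 else if p.2.1 = 1 then 3 else if p.2.1 = 2 then 1 else 0)
  else
    (if p.2.1 = 0 then 3 else if p.2.1 = 3 then (if p.2.2 then 1 else 0)
      else if p.2.1 = 4 then (if p.2.2 then 1 else 0) else 0)

def newE (p : Fin 4 × X × A) : A := if p.1 = 3 ∧ p.2.1 = 4 then tw p.2.2 else p.2.2

def step (s : St) (x : X) : X × St :=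
  (outL (s.1, s.2.2.2, x),
    (newMode (s.1, x, on s.2.1 s.2.2.1), s.2.1 + 1,
      (if s.1 = 2 ∧ x = 1 then s.2.1 else s.2.2.1), newE (s.1, x, s.2.2.2)))

theorem act_one' (n : ℕ) : act n (1 : ℕ → A) = 1 := act_one n

theorem act_single (n k : ℕ) (e : A) :
    act n (Pi.mulSingle k e) = if on n k = true then e else 1 := by
  unfold act on
  by_cases h1 : live n = true
  · by_cases h2 : (Nat.unpair n).1 = k
    · simp [h1, h2]
    · have h3 : (Pi.mulSingle k e : ℕ → A) (Nat.unpair n).1 = 1 := by
        rw [Pi.mulSingle_apply, if_neg h2]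
      rw [if_pos h1, h3]
      simp [h2]
  · simp [h1]

theorem D_one_one (n : ℕ) : D n ((1 : A), (1 : ℕ → A)) = 1 := map_one (D n)

theorem step_spec (s : St) (x : X) (v : W) :
    sem s (x :: v) = (step s x).1 :: sem (step s x).2 v := by
  obtain ⟨m, n, k, e⟩ := s
  fin_cases m
  · simp [sem, step, outL, newMode]
  · simp [sem, step, outL, newMode]
  · have h : sem (2, n, k, e) = D n (e, 1) := rfl
    change sem (2, n, k, e) (x :: v) = _
    rw [h, D_cons]
    fin_cases x <;> simp [sem, step, outL, newMode, newE, secD, act_one', T_eq]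
  · have h : sem (3, n, k, e) = T n k e := rfl
    change sem (3, n, k, e) (x :: v) = _
    rw [h, T_eq, D_cons]
    fin_cases x
    · simp [sem, step, outL, newMode, newE, secD, T_eq]
    · simp [sem, step, outL, newMode, newE, secD, D_one_one]
    · simp [sem, step, outL, newMode, newE, secD]
    · by_cases ho : on n k = true <;>
        simp [sem, step, outL, newMode, newE, secD, act_single, ho]
    · by_cases ho : on n k = true <;>
        simp [sem, step, outL, newMode, newE, secD, act_single, ho]

def stepAcc (p : St × W) (x : X) : St × W := ((step p.1 x).2, (step p.1 x).1 :: p.2)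

def runFun (s : St) (v : W) : W := (v.foldl stepAcc (s, [])).2.reverse

theorem sem_nil (s : St) : sem s [] = [] := by
  obtain ⟨m, n, k, e⟩ := s
  simp only [sem]
  split_ifs <;> simp [T_eq]

theorem run_aux (v : W) : ∀ (s : St) (acc : W),
    (v.foldl stepAcc (s, acc)).2.reverse = acc.reverse ++ sem s v := by
  induction v with
  | nil => intro s acc; simp [sem_nil]
  | cons x v ih =>
    intro s acc
    rw [List.foldl_cons, step_spec]
    have : stepAcc (s, acc) x = ((step s x).2, (step s x).1 :: acc) := rfl
    rw [this, ih]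
    simp

theorem runFun_eq (s : St) (v : W) : runFun s v = sem s v := by
  unfold runFun
  rw [run_aux]
  simp

theorem primrec_live : Primrec live := by
  unfold live
  have h1 : Primrec fun n : ℕ => ((n, Denumerable.ofNat Nat.Partrec.Code (Nat.unpair n).1), 0) :=
    Primrec.pair (Primrec.pair Primrec.id
      ((Primrec.ofNat Nat.Partrec.Code).comp (Primrec.fst.comp Primrec.unpair))) (Primrec.const 0)
  have h2 := Nat.Partrec.Code.primrec_evaln.comp h1
  have h3 := Primrec.not.comp (Primrec.option_isSome.comp h2)
  refine h3.of_eq fun n => ?_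
  simp

theorem primrec_on : Primrec₂ on := by
  unfold on
  exact Primrec.and.comp₂ (primrec_live.comp₂ Primrec₂.left)
    (Primrec.beq.comp₂ ((Primrec.fst.comp Primrec.unpair).comp₂ Primrec₂.left) Primrec₂.right)

theorem primrec_step : Primrec₂ step := by
  have m : Primrec fun p : St × X => p.1.1 := Primrec.fst.comp Primrec.fst
  have n : Primrec fun p : St × X => p.1.2.1 :=
    Primrec.fst.comp (Primrec.snd.comp Primrec.fst)
  have k : Primrec fun p : St × X => p.1.2.2.1 :=
    Primrec.fst.comp (Primrec.snd.comp (Primrec.snd.comp Primrec.fst))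
  have e : Primrec fun p : St × X => p.1.2.2.2 :=
    Primrec.snd.comp (Primrec.snd.comp (Primrec.snd.comp Primrec.fst))
  have x : Primrec fun p : St × X => p.2 := Primrec.snd
  have h1 : Primrec fun p : St × X => outL (p.1.1, p.1.2.2.2, p.2) :=
    (Primrec.dom_finite outL).comp (Primrec.pair m (Primrec.pair e x))
  have h2 : Primrec fun p : St × X => newMode (p.1.1, p.2, on p.1.2.1 p.1.2.2.1) :=
    (Primrec.dom_finite newMode).comp (Primrec.pair m (Primrec.pair x (primrec_on.comp n k)))
  have h3 : Primrec fun p : St × X => p.1.2.1 + 1 := Primrec.succ.comp n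
  have c : PrimrecPred fun p : St × X => p.1.1 = 2 ∧ p.2 = 1 :=
    PrimrecPred.and (Primrec.eq.comp m (Primrec.const 2)) (Primrec.eq.comp x (Primrec.const 1))
  have h4 : Primrec fun p : St × X => (if p.1.1 = 2 ∧ p.2 = 1 then p.1.2.1 else p.1.2.2.1) :=
    Primrec.ite c n k
  have h5 : Primrec fun p : St × X => newE (p.1.1, p.2, p.1.2.2.2) :=
    (Primrec.dom_finite newE).comp (Primrec.pair m (Primrec.pair x e))
  exact Primrec.pair h1 (Primrec.pair h2 (Primrec.pair h3 (Primrec.pair h4 h5)))

theorem primrec_stepAcc : Primrec₂ stepAcc := by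
  have h1 : Primrec fun p : (St × W) × X => step p.1.1 p.2 :=
    primrec_step.comp (Primrec.fst.comp Primrec.fst) Primrec.snd
  exact Primrec.pair (Primrec.snd.comp h1)
    (Primrec.list_cons.comp (Primrec.fst.comp h1) (Primrec.snd.comp Primrec.fst))

theorem primrec_runFun : Primrec₂ runFun := by
  unfold runFun
  have h1 : Primrec fun p : St × W => p.2.foldl (fun s b => stepAcc s b) (p.1, []) :=
    Primrec.list_foldl (h := fun _ q => stepAcc q.1 q.2) Primrec.snd
      (Primrec.pair Primrec.fst (Primrec.const []))
      (primrec_stepAcc.comp₂ (Primrec.fst.comp₂ Primrec₂.right) (Primrec.snd.comp₂ Primrec₂.right))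
  exact Primrec.list_reverse.comp (Primrec.snd.comp h1)

/-- letters: rooted elements and directed elements -/
abbrev La := Bool × A

/-- value of a letter at level `n` -/
def gen (n : ℕ) (l : La) : Perm W := if l.1 then rt l.2 else D n (l.2, 1)

/-- value of a word at level `n` -/
def ev (n : ℕ) (l : List La) : Perm W := (l.map (gen n)).prod

theorem ev_append (n : ℕ) (l l' : List La) : ev n (l ++ l') = ev n l * ev n l' := by
  simp [ev]

theorem ev_nil (n : ℕ) : ev n [] = 1 := rfl

theorem ev_cons (n : ℕ) (a : La) (l : List La) : ev n (a :: l) = gen n a * ev n l := by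
  simp [ev]

theorem gen_mem (n : ℕ) (l : La) : gen n l ∈ Del n := by
  unfold gen
  split_ifs
  · exact rt_mem _ _
  · exact D_one_mem _ _

theorem ev_mem (n : ℕ) (l : List La) : ev n l ∈ Del n := by
  induction l with
  | nil => exact one_mem _
  | cons a l ih => rw [ev_cons]; exact mul_mem (gen_mem n a) ih

theorem gen_U (n : ℕ) (l : La) : gen n l ∈ U n := by
  unfold gen
  split_ifs
  · exact rt_U _ _
  · exact Bset_U ⟨_, _, fun _ _ => rfl, rfl⟩

open scoped Pointwise in
theorem ev_U (n : ℕ) (l : List La) : ev n l ∈ (U n) ^ l.length := by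
  induction l with
  | nil => simp [ev]
  | cons a l ih =>
    rw [ev_cons, List.length_cons, pow_succ']
    exact Set.mul_mem_mul (gen_U n a) ih

/-- starting state of a letter -/
def ini (l : La) : St := (if l.1 then 1 else 2, 0, 0, l.2)

theorem sem_ini (l : La) : sem (ini l) = gen 0 l := by
  obtain ⟨b, a⟩ := l
  cases b
  · rfl
  · rfl

def runWord (l : List La) (v : W) : W := l.foldr (fun a u => runFun (ini a) u) v

theorem runWord_eq (l : List La) (v : W) : runWord l v = ev 0 l v := by
  unfold runWord
  induction l with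
  | nil => rfl
  | cons a l ih => rw [List.foldr_cons, ih, ev_cons, runFun_eq, sem_ini]; rfl

theorem primrec_ini : Primrec ini := by
  unfold ini
  exact Primrec.pair ((Primrec.dom_finite (fun b : Bool => (if b then (1 : Fin 4) else 2))).comp
    Primrec.fst) (Primrec.pair (Primrec.const 0) (Primrec.pair (Primrec.const 0) Primrec.snd))

theorem primrec_runWord : Primrec₂ runWord := by
  unfold runWord
  exact Primrec.list_foldr (h := fun _ q => runFun (ini q.1) q.2) Primrec.fst Primrec.snd
    (primrec_runFun.comp₂ ((primrec_ini.comp Primrec.fst).comp₂ Primrec₂.right)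
      (Primrec.snd.comp₂ Primrec₂.right))

/-- all words of a given length -/
def allW (n : ℕ) : List W :=
  Nat.rec [[]] (fun _ L => L.flatMap fun v => (List.finRange 5).map fun x => x :: v) n

theorem mem_allW (n : ℕ) (v : W) : v ∈ allW n ↔ v.length = n := by
  induction n generalizing v with
  | zero => simp [allW, List.length_eq_zero_iff]
  | succ n ih =>
    have h : allW (n + 1) = (allW n).flatMap fun v => (List.finRange 5).map fun x => x :: v := rfl
    rw [h, List.mem_flatMap]
    constructor
    · rintro ⟨u, hu, hv⟩
      rw [List.mem_map] at hv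
      obtain ⟨x, -, rfl⟩ := hv
      rw [List.length_cons, (ih u).1 hu]
    · intro hv
      cases v with
      | nil => simp at hv
      | cons x v =>
        refine ⟨v, (ih v).2 (by simpa using hv), ?_⟩
        rw [List.mem_map]
        exact ⟨x, List.mem_finRange x, rfl⟩

theorem primrec_allW : Primrec allW := by
  unfold allW
  refine Primrec.nat_rec₁ _ ?_
  refine Primrec.list_flatMap Primrec.snd ?_
  refine Primrec.list_map (Primrec.const _) ?_
  exact Primrec.list_cons.comp₂ Primrec₂.right (Primrec.snd.comp₂ Primrec₂.left)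

theorem primrec_depth : Primrec depth := by
  have h1 : Primrec fun m : ℕ => m + 2 := Primrec.nat_add.comp Primrec.id (Primrec.const 2)
  have h2 : Primrec fun m : ℕ => (m + 2) * (m + 2) := Primrec.nat_mul.comp h1 h1
  have h3 : Primrec fun m : ℕ => (m + 2) * (m + 2) + 2 :=
    Primrec.nat_add.comp h2 (Primrec.const 2)
  have h4 : Primrec fun m : ℕ => (m + 2) * (m + 2) + 2 + (m + 1) :=
    Primrec.nat_add.comp h3 Primrec.succ
  refine h4.of_eq fun m => ?_
  unfold depth
  ring

open scoped Pointwise in
theorem ev_eq_one_iff (l : List La) :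
    ev 0 l = 1 ↔ ∀ v ∈ allW (depth l.length), runWord l v = v := by
  constructor
  · intro h v _
    rw [runWord_eq, h]
    rfl
  · intro h
    apply trivial_of_depth (m := l.length)
    · exact Set.pow_subset_pow_right (one_mem_U 0) (Nat.le_succ _) (ev_U 0 l)
    · exact ev_mem 0 l
    · intro v hv
      rw [← runWord_eq]
      exact h v ((mem_allW _ _).2 hv)

theorem wp_primrec : PrimrecPred fun l : List La => ev 0 l = 1 := by
  have h1 : PrimrecRel fun (v : W) (l : List La) => runWord l v = v :=
    Primrec.eq.comp (primrec_runWord.comp Primrec.snd Primrec.fst) Primrec.fst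
  have h2 := PrimrecRel.forall_mem_list h1
  have h3 : PrimrecPred fun l : List La => ∀ v ∈ allW (depth l.length), runWord l v = v :=
    h2.comp (primrec_allW.comp (primrec_depth.comp Primrec.list_length)) Primrec.id
  exact h3.of_eq fun l => (ev_eq_one_iff l).symm

end Pool.Agent.Helper581.CP
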