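import Pool.Agent.Helper581.CP.Contract

set_option autoImplicit false

namespace Pool.Agent.Helper581.CP

open Equiv
open scoped Pointwise

/-- thread `k` seen from level `n` -/
def T (n k : ℕ) : A →* Perm W :=
  (D n).comp ((MonoidHom.inr A (ℕ → A)).comp (MonoidHom.mulSingle (fun _ : ℕ => A) k))

theorem T_eq (n k : ℕ) (e : A) : T n k e = D n (1, Pi.mulSingle k e) := rfl

theorem T_injective {n k : ℕ} (hk : ∀ N, (Nat.unpair N).1 = k → live N = true) :
    Function.Injective (T n k) := by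
  intro e e' h
  obtain ⟨j, hj⟩ : ∃ j, Nat.pair k n = n + j :=
    ⟨Nat.pair k n - n, by have := Nat.right_le_pair k n; omega⟩
  have hl : live (n + j) = true := hk _ (by rw [← hj]; simp)
  have ha : ∀ e : A, act (n + j) (Pi.mulSingle k e) = e := by
    intro e
    unfold act
    rw [if_pos hl, ← hj]
    simp
  ext x : 2
  have h1 := congrArg (fun g : Perm W => g (List.replicate j 0 ++ 3 :: [x])) h
  simp only [T_eq, D_deep, ha, rt_cons] at h1
  simpa using h1

theorem secT (n k : ℕ) (e : A) (y : X) (hy : y ≠ 0) :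
    ∃ b : A, secD n 1 (Pi.mulSingle k e) y = rt b := by
  unfold secD
  rw [if_neg hy]
  split_ifs
  · refine ⟨1, ?_⟩
    rw [Pi.mulSingle_one, map_one]
    exact map_one (D (n + 1))
  · exact ⟨_, rfl⟩
  · exact ⟨_, rfl⟩
  · exact ⟨_, rfl⟩

theorem T_letter (n k : ℕ) (e : A) (x : X) : T n k e [x] = [x] := by
  rw [T_eq, D_cons]
  congr 1
  unfold secD
  split_ifs <;> simp

theorem Lt_sub_Del (n m : ℕ) : (Lt n) ^ m ⊆ (Del n : Set (Perm W)) := by
  induction m with
  | zero => rw [pow_zero]; rintro _ rfl; exact one_mem _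
  | succ m ih =>
    rw [pow_succ]
    rintro _ ⟨g, hg, h, hh, rfl⟩
    refine mul_mem (ih hg) ?_
    rcases hh with ⟨a, rfl⟩ | ⟨e, f, hf, rfl⟩
    · exact rt_mem n a
    · exact D_mem hf

theorem descent {n k : ℕ} (hk : ∀ N, (Nat.unpair N).1 = k → live N = true) {z z' : A}
    (hz : z ≠ 1) {g s : Perm W} {y : X} (hs : s ∈ Del (n + 1))
    (hg : ∀ v : W, g (0 :: v) = y :: s v) (h : g * T n k z = T n k z' * g) :
    y = 0 ∧ s * T (n + 1) k z = T (n + 1) k z' * s := by
  have key : ∀ v : W, s (T (n + 1) k z v) = secD n 1 (Pi.mulSingle k z') y (s v) := by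
    intro v
    have h1 := congrArg (fun g : Perm W => g (0 :: v)) h
    simp only [Perm.mul_apply] at h1
    rw [T_eq, D_cons, hg, T_eq, hg, D_cons] at h1
    exact (List.cons.inj h1).2
  have hy : y = 0 := by
    by_contra hy
    obtain ⟨b, hb⟩ := secT n k z' y hy
    rw [hb] at key
    have hb1 : b = 1 := by
      apply alt_eq_one
      intro t
      have hlen : (s⁻¹ [t]).length = 1 := Del_length [t] (inv_mem hs)
      obtain ⟨x, hx⟩ := List.length_eq_one_iff.1 hlen
      have hx2 : s [x] = [t] := by rw [← hx]; simp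
      have h1 := key [x]
      rw [T_letter, hx2, rt_cons] at h1
      exact (List.cons.inj h1).1.symm
    rw [hb1, map_one] at key
    have h2 : T (n + 1) k z = T (n + 1) k 1 := by
      rw [map_one]
      ext v : 1
      exact s.injective (key v)
    exact hz (T_injective hk h2)
  refine ⟨hy, ?_⟩
  subst hy
  ext v : 1
  exact key v

theorem no_conj_B {n k : ℕ} (hk : ∀ N, (Nat.unpair N).1 = k → live N = true) {z z' : A}
    (hzz : ∀ a : A, a * z * a⁻¹ ≠ z') {g : Perm W} (hg : g ∈ Bset n) :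
    g * T n k z ≠ T n k z' * g := by
  obtain ⟨e, f, hf, rfl⟩ := hg
  intro h
  have h1 : D n (e, f) * T n k z * (D n (e, f))⁻¹ = T n k (f k * z * (f k)⁻¹) := by
    rw [T_eq, T_eq, ← map_inv, ← map_mul, ← map_mul]
    congr 1
    ext1
    · simp
    · funext i
      by_cases hi : i = k
      · subst hi; simp
      · simp [hi]
  rw [h, mul_inv_cancel_right] at h1
  exact hzz _ (T_injective hk h1).symm

theorem no_conj {k : ℕ} (hk : ∀ N, (Nat.unpair N).1 = k → live N = true) {z z' : A} (hz : z ≠ 1)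
    (hzz : ∀ a : A, a * z * a⁻¹ ≠ z') (m : ℕ) : ∀ {n : ℕ} {g : Perm W}, g ∈ (U n) ^ (m + 1) →
    g * T n k z ≠ T n k z' * g := by
  induction m using Nat.strong_induction_on with
  | _ m ih =>
    intro n g hg h
    obtain ⟨y, s, hs, hsg⟩ := sec_U_pow (m + 1) hg 0
    have hsD : s ∈ Del (n + 1) := Lt_sub_Del _ _ hs
    obtain ⟨hy, h2⟩ := descent hk hz hsD hsg h
    rcases Nat.eq_zero_or_pos m with rfl | hm
    · rw [zero_add, pow_one] at hs
      rcases hs with ⟨a, rfl⟩ | hs
      · obtain ⟨-, h3⟩ := descent (g := rt a) (s := 1) (y := a.1 0) hk hz (one_mem _)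
          (fun v => rfl) h2
        rw [one_mul, mul_one] at h3
        exact hzz 1 (by simpa using T_injective hk h3)
      · exact no_conj_B hk hzz hs h2
    · have h3 := Lt_pow _ _ hs
      have h4 : (m + 1 + 1) / 2 = m / 2 + 1 := by omega
      rw [h4] at h3
      exact ih (m / 2) (by omega) h3 h2

def rho : A := ⟨swap 1 2 * swap 3 4, Perm.mem_alternatingGroup.2 (by decide)⟩

theorem act_tw (n k : ℕ) (z : A) :
    act n (Pi.mulSingle k (tw z)) = tw (act n (Pi.mulSingle k z)) := by
  unfold act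
  split_ifs
  · by_cases h : (Nat.unpair n).1 = k
    · rw [h]; simp
    · rw [Pi.mulSingle_eq_of_ne h, Pi.mulSingle_eq_of_ne h, map_one]
  · rw [map_one]

theorem conj_of_halt {k N0 : ℕ} (hk : ∀ N, N0 ≤ N → (Nat.unpair N).1 = k → live N = false)
    (z : A) (d : ℕ) : ∀ n : ℕ, N0 ≤ n + d → ∃ h ∈ Del n, h * T n k z * h⁻¹ = T n k (tw z) := by
  induction d with
  | zero =>
    intro n hn
    have h1 : ∀ z : A, T n k z = 1 := by
      intro z
      ext v : 1
      apply D_eq_one
      intro N hN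
      unfold act
      by_cases h : (Nat.unpair N).1 = k
      · rw [hk N (by omega) h]; simp
      · have h2 : (Pi.mulSingle k z : ℕ → A) (Nat.unpair N).1 = 1 := by
          rw [Pi.mulSingle_apply, if_neg h]
        change (if live N = true then (Pi.mulSingle k z : ℕ → A) (Nat.unpair N).1 else 1) = 1
        rw [h2]; simp
    exact ⟨1, one_mem _, by rw [h1, h1]; simp⟩
  | succ d ih =>
    intro n hn
    obtain ⟨h, hh, hc⟩ := ih (n + 1) (by omega)
    refine ⟨dl 0 h * rt rho, mul_mem (dl_mem 0 hh) (rt_mem n rho), ?_⟩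
    have e1 : dl 0 h * rt rho * T n k z * (dl 0 h * rt rho)⁻¹ =
        dl 0 h * (rt rho * T n k z * (rt rho)⁻¹) * (dl 0 h)⁻¹ := by group
    rw [e1, T_eq, T_eq, D_eq_node, D_eq_node, rt_conj_node, dl_eq, ← map_inv, ← map_mul,
      ← map_mul]
    congr 1
    funext x
    have h0 : rho.1⁻¹ 0 = 0 := by decide
    have h1 : (Equiv.symm rho.1) 1 = 2 := by decide
    have h2 : (Equiv.symm rho.1) 2 = 1 := by decide
    have h3 : (Equiv.symm rho.1) 3 = 4 := by decide
    have h4 : (Equiv.symm rho.1) 4 = 3 := by decide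
    have hone : D (n + 1) ((1 : A), (1 : ℕ → A)) = 1 := map_one (D (n + 1))
    fin_cases x
    · simp only [Fin.zero_eta, Pi.mul_apply, Pi.inv_apply, Pi.mulSingle_eq_same, h0]
      exact hc
    · simp [h1, secD, hone]
    · simp [h2, secD, hone]
    · simp [h3, secD, act_tw]
    · simp [h4, secD, act_tw, tw_tw]

/-- a five-cycle -/
def zeta : A := ⟨finRotate 5, Perm.finRotate_bit1_mem_alternatingGroup (n := 2)⟩

theorem zeta_ne_one : zeta ≠ 1 := by
  intro h
  have := congrArg (fun a : A => a.1 0) h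
  revert this
  decide

theorem zeta_nonconj (a : A) : a * zeta * a⁻¹ ≠ tw zeta := by
  have key : ∀ g : Perm (Fin 5), g * finRotate 5 = (swap 0 1 * finRotate 5 * swap 0 1) * g →
      Perm.sign g ≠ 1 := by decide +kernel
  intro h
  have h1 : a.1 * finRotate 5 * a.1⁻¹ = swap 0 1 * finRotate 5 * (swap 0 1)⁻¹ :=
    congrArg Subtype.val h
  rw [mul_inv_eq_iff_eq_mul, swap_inv] at h1
  exact key a.1 h1 (Perm.mem_alternatingGroup.1 a.2)

end Pool.Agent.Helper581.CP
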