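import Pool.Agent.Helper581.CP.Branch

set_option autoImplicit false

namespace Pool.Agent.Helper581.CP

open Equiv
open scoped Pointwise

/-- letters of level `n` -/
def Lt (n : ℕ) : Set (Perm W) := Set.range rt ∪ Bset n

/-- syllables of level `n` -/
def U (n : ℕ) : Set (Perm W) := {g | ∃ (a b : A) (y : Perm W), y ∈ Bset n ∧ g = rt a * y * rt b}

theorem one_mem_Bset (n : ℕ) : (1 : Perm W) ∈ Bset n :=
  ⟨1, 1, fun _ _ => rfl, (map_one (D n)).symm⟩

theorem Bset_mul {n : ℕ} {g h : Perm W} (hg : g ∈ Bset n) (hh : h ∈ Bset n) : g * h ∈ Bset n := by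
  obtain ⟨e, f, hf, rfl⟩ := hg
  obtain ⟨e', f', hf', rfl⟩ := hh
  refine ⟨e * e', f * f', fun i hi => by simp [hf i hi, hf' i hi], ?_⟩
  rw [← map_mul]
  rfl

theorem one_mem_Lt (n : ℕ) : (1 : Perm W) ∈ Lt n := Or.inr (one_mem_Bset n)

theorem Bset_U {n : ℕ} {g : Perm W} (hg : g ∈ Bset n) : g ∈ U n := ⟨1, 1, g, hg, by simp⟩

theorem rt_U (n : ℕ) (a : A) : rt a ∈ U n := ⟨a, 1, 1, one_mem_Bset n, by simp⟩

theorem one_mem_U (n : ℕ) : (1 : Perm W) ∈ U n := Bset_U (one_mem_Bset n)

theorem Lt_sq (n : ℕ) : (Lt n) ^ 2 ⊆ U n := by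
  rw [pow_two]
  rintro _ ⟨g, hg, h, hh, rfl⟩
  rcases hg with ⟨a, rfl⟩ | hg <;> rcases hh with ⟨b, rfl⟩ | hh
  · exact ⟨a, b, 1, one_mem_Bset n, by simp⟩
  · exact ⟨a, 1, h, hh, by simp⟩
  · exact ⟨1, b, g, hg, by simp⟩
  · exact Bset_U (Bset_mul hg hh)

theorem Lt_pow (n m : ℕ) : (Lt n) ^ m ⊆ (U n) ^ ((m + 1) / 2) := by
  calc (Lt n) ^ m ⊆ (Lt n) ^ (2 * ((m + 1) / 2)) :=
        Set.pow_subset_pow_right (one_mem_Lt n) (by omega)
    _ = ((Lt n) ^ 2) ^ ((m + 1) / 2) := pow_mul _ _ _
    _ ⊆ (U n) ^ ((m + 1) / 2) := Set.pow_subset_pow_left (Lt_sq n)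

theorem sec_Bset {n : ℕ} {g : Perm W} (hg : g ∈ Bset n) (x : X) :
    ∃ s ∈ Lt (n + 1), ∀ v : W, g (x :: v) = x :: s v := by
  obtain ⟨e, f, hf, rfl⟩ := hg
  refine ⟨secD n e f x, ?_, fun v => D_cons n e f x v⟩
  unfold secD
  split_ifs
  · exact Or.inr ⟨e, f, fun i hi => hf i (by omega), rfl⟩
  · exact Or.inr ⟨1, _, fun i hi => Pi.mulSingle_eq_of_ne (by omega) _, rfl⟩
  · exact Or.inl ⟨_, rfl⟩
  · exact Or.inl ⟨_, rfl⟩
  · exact Or.inl ⟨_, rfl⟩

theorem sec_U {n : ℕ} {g : Perm W} (hg : g ∈ U n) (x : X) :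
    ∃ (y : X), ∃ s ∈ Lt (n + 1), ∀ v : W, g (x :: v) = y :: s v := by
  obtain ⟨a, b, y, hy, rfl⟩ := hg
  obtain ⟨s, hs, h⟩ := sec_Bset hy (b.1 x)
  exact ⟨a.1 (b.1 x), s, hs, fun v => by simp [h]⟩

theorem sec_U_pow {n : ℕ} (m : ℕ) : ∀ {g : Perm W}, g ∈ (U n) ^ m → ∀ x : X,
    ∃ (y : X), ∃ s ∈ (Lt (n + 1)) ^ m, ∀ v : W, g (x :: v) = y :: s v := by
  induction m with
  | zero =>
    intro g hg x
    rw [pow_zero, Set.mem_one] at hg
    subst hg
    exact ⟨x, 1, by simp, fun v => rfl⟩
  | succ m ih =>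
    intro g hg x
    rw [pow_succ] at hg
    obtain ⟨h, hh, u, hu, rfl⟩ := hg
    obtain ⟨y, s, hs, h1⟩ := sec_U hu x
    obtain ⟨z, t, ht, h2⟩ := ih hh y
    refine ⟨z, t * s, ?_, fun v => ?_⟩
    · rw [pow_succ]
      exact Set.mul_mem_mul ht hs
    · change h (u (x :: v)) = _
      rw [h1, h2]
      rfl

theorem path_U (m : ℕ) : ∀ {n : ℕ} {g : Perm W}, g ∈ (U n) ^ (m + 1) → ∀ v : W, v.length = m →
    ∃ (w : W), w.length = v.length ∧ ∃ s ∈ U (n + m), ∀ u : W, g (v ++ u) = w ++ s u := by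
  induction m with
  | zero =>
    intro n g hg v hv
    rw [List.length_eq_zero_iff] at hv
    subst hv
    rw [zero_add, pow_one] at hg
    exact ⟨[], rfl, g, hg, fun u => rfl⟩
  | succ m ih =>
    intro n g hg v hv
    cases v with
    | nil => simp at hv
    | cons x v =>
      obtain ⟨y, s, hs, h1⟩ := sec_U_pow (m + 1 + 1) hg x
      have h2 : s ∈ (U (n + 1)) ^ (m + 1) :=
        Set.pow_subset_pow_right (one_mem_U _) (by omega) (Lt_pow _ _ hs)
      obtain ⟨w, hw, t, ht, h3⟩ := ih h2 v (by simpa using hv)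
      refine ⟨y :: w, by simp [hw], t, ?_, fun u => ?_⟩
      · rw [show n + (m + 1) = n + 1 + m by omega]
        exact ht
      · rw [List.cons_append, h1, h3]
        rfl

theorem path_Lt (m : ℕ) {n : ℕ} {g : Perm W} (hg : g ∈ (U n) ^ (m + 1)) (v : W)
    (hv : v.length = m + 1) :
    ∃ (w : W), w.length = v.length ∧ ∃ s ∈ Lt (n + (m + 1)), ∀ u : W, g (v ++ u) = w ++ s u := by
  obtain ⟨v', x, rfl⟩ : ∃ (v' : W) (x : X), v = v' ++ [x] := by
    refine ⟨v.dropLast, v.getLast (by intro h; simp [h] at hv), ?_⟩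
    exact (List.dropLast_append_getLast _).symm
  simp only [List.length_append, List.length_singleton, Nat.add_right_cancel_iff] at hv
  obtain ⟨w, hw, s, hs, h⟩ := path_U m hg v' hv
  obtain ⟨y, t, ht, h2⟩ := sec_U hs x
  refine ⟨w ++ [y], by simp [hw], t, ht, fun u => ?_⟩
  rw [List.append_assoc, h, List.singleton_append, h2]
  simp

theorem live_mono {N N' : ℕ} (h : (Nat.unpair N).1 = (Nat.unpair N').1) (hle : N' ≤ N)
    (hl : live N = true) : live N' = true := by
  unfold live at *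
  rw [h] at hl
  rw [Option.isNone_iff_eq_none] at *
  rw [Option.eq_none_iff_forall_not_mem] at *
  intro x hx
  exact hl x (Nat.Partrec.Code.evaln_mono hle hx)

theorem D_deep (j : ℕ) : ∀ (n : ℕ) (e : A) (f : ℕ → A) (v : W),
    D n (e, f) (List.replicate j 0 ++ 3 :: v) =
      List.replicate j 0 ++ 3 :: rt (act (n + j) f) v := by
  induction j with
  | zero =>
    intro n e f v
    rw [List.replicate_zero, List.nil_append, List.nil_append, D_cons]
    rfl
  | succ j ih =>
    intro n e f v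
    rw [List.replicate_succ, List.cons_append, D_cons]
    have : secD n e f 0 = D (n + 1) (e, f) := rfl
    rw [this, ih, show n + 1 + j = n + (j + 1) by omega]
    rfl

theorem D_eq_one {f : ℕ → A} (v : W) : ∀ {n : ℕ}, (∀ N, n ≤ N → act N f = 1) →
    D n (1, f) v = v := by
  induction v with
  | nil => intro n h; rfl
  | cons x v ih =>
    intro n h
    rw [D_cons]
    congr 1
    unfold secD
    split_ifs
    · exact ih (fun N hN => h N (by omega))
    · rw [Pi.mulSingle_one]
      have h3 : D (n + 1) ((1 : A), (1 : ℕ → A)) = 1 := map_one (D (n + 1))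
      rw [h3]
      rfl
    · rw [map_one]; rfl
    · rw [h n le_rfl, map_one]; rfl
    · rw [h n le_rfl, map_one, map_one]; rfl

theorem alt_eq_one {a : A} (h : ∀ x : X, a.1 x = x) : a = 1 := by
  ext x : 2
  exact h x

theorem letter_trivial {n K : ℕ} {g : Perm W} (hg : g ∈ Lt n) (hK : 2 ≤ K)
    (hK2 : (n + 1) ^ 2 + 2 ≤ n + K) (h : ∀ v : W, v.length = K → g v = v) : g = 1 := by
  rcases hg with ⟨a, rfl⟩ | ⟨e, f, hf, rfl⟩
  · have : a = 1 := by
      apply alt_eq_one
      intro x
      have := h (x :: List.replicate (K - 1) 0) (by simp; omega)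
      rw [rt_cons] at this
      exact (List.cons.inj this).1
    rw [this, map_one]
  · have he : e = 1 := by
      apply alt_eq_one
      intro x
      have := h (2 :: x :: List.replicate (K - 2) 0) (by simp; omega)
      rw [D_cons] at this
      have h2 : secD n e f 2 = rt e := rfl
      rw [h2, rt_cons] at this
      simpa using this
    subst he
    have hact : ∀ N, n ≤ N → N + 2 ≤ n + K → act N f = 1 := by
      intro N hN hNK
      obtain ⟨j, rfl⟩ : ∃ j, N = n + j := ⟨N - n, by omega⟩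
      apply alt_eq_one
      intro x
      have := h (List.replicate j 0 ++ 3 :: x :: List.replicate (K - j - 2) 0) (by
        simp; omega)
      rw [D_deep, rt_cons] at this
      simpa using this
    have hact2 : ∀ N, n ≤ N → act N f = 1 := by
      intro N hN
      rcases le_or_gt n (Nat.unpair N).1 with hi | hi
      · unfold act
        rw [hf _ hi]
        simp
      · have h1 : n ≤ Nat.pair (Nat.unpair N).1 n := Nat.right_le_pair _ _
        have h2 : Nat.pair (Nat.unpair N).1 n < (max (Nat.unpair N).1 n + 1) ^ 2 :=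
          Nat.pair_lt_max_add_one_sq _ _
        rw [max_eq_right hi.le] at h2
        rcases le_or_gt N (Nat.pair (Nat.unpair N).1 n) with hle | hgt
        · exact hact N hN (by omega)
        · have h3 := hact _ h1 (by omega)
          by_cases hl : live N = true
          · have h4 : live (Nat.pair (Nat.unpair N).1 n) = true :=
              live_mono (by simp) hgt.le hl
            unfold act at h3 ⊢
            rw [if_pos h4] at h3
            rw [if_pos hl]
            simpa using h3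
          · unfold act
            rw [if_neg hl]
    ext v : 1
    exact D_eq_one v hact2

/-- the depth bound -/
def depth (m : ℕ) : ℕ := (m + 2) ^ 2 + 2 + (m + 1)

theorem trivial_of_depth {m : ℕ} {g : Perm W} (hg : g ∈ (U 0) ^ (m + 1)) (hD : g ∈ Del 0)
    (h : ∀ v : W, v.length = depth m → g v = v) : g = 1 := by
  have key : ∀ v : W, v.length = m + 1 → ∀ u : W, g (v ++ u) = v ++ u := by
    intro v hv
    obtain ⟨w, hw, s, hs, hsg⟩ := path_Lt m hg v hv
    have hwv : w = v := by
      have h1 := h (v ++ List.replicate ((m + 2) ^ 2 + 2) 0) (by simp [depth, hv]; omega)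
      rw [hsg] at h1
      exact (List.append_inj h1 hw).1
    subst hwv
    have hs1 : s = 1 := by
      apply letter_trivial (K := (m + 2) ^ 2 + 2) hs (by omega) (by
        have : 0 + (m + 1) + 1 = m + 2 := by omega
        rw [this]; omega)
      intro u hu
      have h1 := h (w ++ u) (by simp [depth, hv, hu]; omega)
      rw [hsg] at h1
      exact (List.append_inj h1 rfl).2
    intro u
    rw [hsg, hs1]
    rfl
  ext w : 1
  obtain ⟨w', s, hw', hs, hsg⟩ := Del_path w hD
  have h0 := hsg []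
  rw [List.append_nil] at h0
  have h1 := hsg (List.replicate (m + 1) 0)
  have h2 : g (w ++ List.replicate (m + 1) 0) = w ++ List.replicate (m + 1) 0 := by
    have h3 := key ((w ++ List.replicate (m + 1) 0).take (m + 1)) (by simp)
      ((w ++ List.replicate (m + 1) 0).drop (m + 1))
    rwa [List.take_append_drop] at h3
  rw [h2] at h1
  have h4 := (List.append_inj h1 hw'.symm).1
  rw [h0, Del_nil hs, List.append_nil, ← h4]
  rfl

end Pool.Agent.Helper581.CP
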