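import Pool.Agent.Helper581.CP.Basic

set_option autoImplicit false

namespace Pool.Agent.Helper581.CP

open Equiv
open scoped commutatorElement

/-- Directed generators of level `n`. -/
def Bset (n : ℕ) : Set (Perm W) :=
  {g | ∃ (e : A) (f : ℕ → A), (∀ i, n ≤ i → f i = 1) ∧ g = D n (e, f)}

/-- The group acting at the vertices of level `n`. -/
def Del (n : ℕ) : Subgroup (Perm W) := Subgroup.closure (Set.range rt ∪ Bset n)

theorem rt_mem (n : ℕ) (a : A) : rt a ∈ Del n :=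
  Subgroup.subset_closure (Or.inl ⟨a, rfl⟩)

theorem D_mem {n : ℕ} {e : A} {f : ℕ → A} (hf : ∀ i, n ≤ i → f i = 1) : D n (e, f) ∈ Del n :=
  Subgroup.subset_closure (Or.inr ⟨e, f, hf, rfl⟩)

theorem D_one_mem (n : ℕ) (e : A) : D n (e, 1) ∈ Del n := D_mem (fun _ _ => rfl)

theorem commutator_A : commutator A = ⊤ := by
  have hs : IsSimpleGroup A := alternatingGroup.isSimpleGroup (by simp)
  rcases hs.eq_bot_or_eq_top_of_normal (commutator A) inferInstance with h | h
  · exfalso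
    rw [commutator_eq_bot_iff_center_eq_top] at h
    have hc : Subgroup.center A = ⊥ := alternatingGroup.center_eq_bot (by simp)
    rw [hc] at h
    have hn : Nontrivial A := hs.toNontrivial
    exact bot_ne_top h
  · exact h

def s0 : A := ⟨swap 1 3 * swap 2 4, Perm.mem_alternatingGroup.2 (by decide)⟩
def s1 : A := ⟨swap 0 3 * swap 2 4, Perm.mem_alternatingGroup.2 (by decide)⟩
def s2 : A := ⟨swap 0 3 * swap 1 4, Perm.mem_alternatingGroup.2 (by decide)⟩

theorem node_comm (s t : X → Perm W) : ⁅node s, node t⁆ = node (fun x => ⁅s x, t x⁆) := by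
  rw [← map_commutatorElement]
  rfl

theorem comm0 (n : ℕ) (e e' : A) :
    ⁅D n (e, 1), rt s0 * D n (e', 1) * (rt s0)⁻¹⁆ = dl 0 (D (n + 1) (⁅e, e'⁆, 1)) := by
  rw [D_eq_node, D_eq_node, rt_conj_node, node_comm, dl_eq]
  congr 1
  funext x
  have h0 : s0.1⁻¹ 0 = 0 := by decide
  have h1 : s0.1⁻¹ 1 = 3 := by decide
  have h2 : s0.1⁻¹ 2 = 4 := by decide
  have h3 : s0.1⁻¹ 3 = 1 := by decide
  have h4 : s0.1⁻¹ 4 = 2 := by decide
  fin_cases x
  · simp only [Fin.zero_eta, h0, secD, if_true, Pi.mulSingle_eq_same, ← map_commutatorElement]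
    congr 1
  · simp [h1, secD, act_one]
  · simp [h2, secD, act_one]
  · simp [h3, secD, act_one]
  · simp [h4, secD, act_one]

theorem comm1 (n : ℕ) (e e' : A) :
    ⁅D n (e, 1), rt s1 * D n (e', 1) * (rt s1)⁻¹⁆ =
      dl 1 (D (n + 1) (1, Pi.mulSingle n ⁅e, e'⁆)) := by
  rw [D_eq_node, D_eq_node, rt_conj_node, node_comm, dl_eq]
  congr 1
  funext x
  have h0 : s1.1⁻¹ 0 = 3 := by decide
  have h1 : s1.1⁻¹ 1 = 1 := by decide
  have h2 : s1.1⁻¹ 2 = 4 := by decide
  have h3 : s1.1⁻¹ 3 = 0 := by decide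
  have h4 : s1.1⁻¹ 4 = 2 := by decide
  fin_cases x
  · simp [h0, secD, act_one]
  · simp only [Fin.mk_one, h1, secD, Pi.mulSingle_eq_same]
    simp only [one_ne_zero, if_false, if_true, ← map_commutatorElement]
    congr 1
    ext1
    · simp [commutatorElement_def]
    · simp [commutatorElement_def, Pi.mulSingle_mul, Pi.mulSingle_inv]
  · simp [h2, secD, act_one]
  · simp [h3, secD, act_one]
  · simp [h4, secD, act_one]

theorem comm2 (n : ℕ) (e e' : A) :
    ⁅D n (e, 1), rt s2 * D n (e', 1) * (rt s2)⁻¹⁆ = dl 2 (rt ⁅e, e'⁆) := by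
  rw [D_eq_node, D_eq_node, rt_conj_node, node_comm, dl_eq]
  congr 1
  funext x
  have h0 : s2.1⁻¹ 0 = 3 := by decide
  have h1 : s2.1⁻¹ 1 = 4 := by decide
  have h2 : s2.1⁻¹ 2 = 2 := by decide
  have h3 : s2.1⁻¹ 3 = 0 := by decide
  have h4 : s2.1⁻¹ 4 = 1 := by decide
  fin_cases x
  · simp [h0, secD, act_one]
  · simp [h1, secD, act_one]
  · simp [h2, secD, map_commutatorElement]
  · simp [h3, secD, act_one]
  · simp [h4, secD, act_one]

theorem perf (φ : A →* Perm W) (H : Subgroup (Perm W)) (h : ∀ e e' : A, φ ⁅e, e'⁆ ∈ H) (e : A) :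
    φ e ∈ H := by
  have h1 : commutator A ≤ H.comap φ := by
    rw [commutator_def, Subgroup.commutator_le]
    intro a _ b _
    exact h a b
  rw [commutator_A] at h1
  exact h1 (Subgroup.mem_top e)

theorem comm_mem {n : ℕ} (a : A) (e e' : A) :
    ⁅D n (e, 1), rt a * D n (e', 1) * (rt a)⁻¹⁆ ∈ Del n := by
  have h1 : D n (e, 1) ∈ Del n := D_one_mem n e
  have h2 : rt a * D n (e', 1) * (rt a)⁻¹ ∈ Del n :=
    mul_mem (mul_mem (rt_mem n a) (D_one_mem n e')) (inv_mem (rt_mem n a))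
  rw [commutatorElement_def]
  exact mul_mem (mul_mem (mul_mem h1 h2) (inv_mem h1)) (inv_mem h2)

theorem dl0_mem (n : ℕ) (e : A) : dl 0 (D (n + 1) (e, 1)) ∈ Del n :=
  perf ((dl 0).comp ((D (n + 1)).comp (MonoidHom.inl A (ℕ → A)))) (Del n)
    (fun a b => by
      have := comm_mem (n := n) s0 a b
      rw [comm0] at this
      exact this) e

theorem dl1_mem (n : ℕ) (e : A) : dl 1 (D (n + 1) (1, Pi.mulSingle n e)) ∈ Del n :=
  perf ((dl 1).comp ((D (n + 1)).comp ((MonoidHom.inr A (ℕ → A)).comp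
      (MonoidHom.mulSingle (fun _ : ℕ => A) n)))) (Del n)
    (fun a b => by
      have := comm_mem (n := n) s1 a b
      rw [comm1] at this
      exact this) e

theorem dl2_mem (n : ℕ) (e : A) : dl 2 (rt e) ∈ Del n :=
  perf ((dl 2).comp rt) (Del n)
    (fun a b => by
      have := comm_mem (n := n) s2 a b
      rw [comm2] at this
      exact this) e

theorem exists_move (x y : X) : ∃ a : A, a.1 x = y := by
  have h : ∀ x y : Fin 5, ∃ k : Fin 5, ((finRotate 5) ^ (k : ℕ)) x = y := by decide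
  obtain ⟨k, hk⟩ := h x y
  refine ⟨⟨(finRotate 5) ^ (k : ℕ), ?_⟩, hk⟩
  exact pow_mem (Perm.finRotate_bit1_mem_alternatingGroup (n := 2)) _

theorem dl_move {n : ℕ} {x : X} {g : Perm W} (h : dl x g ∈ Del n) (y : X) : dl y g ∈ Del n := by
  obtain ⟨a, ha⟩ := exists_move x y
  rw [← ha, ← dl_conj]
  exact mul_mem (mul_mem (rt_mem n a) h) (inv_mem (rt_mem n a))

theorem dl_rt_mem (n : ℕ) (x : X) (e : A) : dl x (rt e) ∈ Del n := dl_move (dl2_mem n e) x

/-- Splitting the directed element along the last thread. -/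
theorem D_split (n : ℕ) (e : A) (f : ℕ → A) (hf : ∀ i, n + 1 ≤ i → f i = 1) :
    ∃ f' : ℕ → A, (∀ i, n ≤ i → f' i = 1) ∧
      D (n + 1) (e, f) = D (n + 1) (e, 1) * D (n + 1) (1, f') *
        D (n + 1) (1, Pi.mulSingle n (f n)) := by
  refine ⟨f * (Pi.mulSingle n (f n))⁻¹, ?_, ?_⟩
  · intro i hi
    rcases eq_or_lt_of_le hi with rfl | h
    · simp
    · simp [hf i h, Pi.mulSingle_eq_of_ne (ne_of_gt h)]
  · rw [← map_mul, ← map_mul]
    congr 1
    ext1
    · simp
    · simp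

theorem dl_thread_mem (n : ℕ) (f : ℕ → A) (hf : ∀ i, n ≤ i → f i = 1) :
    dl 0 (D (n + 1) (1, f)) ∈ Del n := by
  have h1 : D n (1, f) ∈ Del n := D_mem hf
  have h2 : D n (1, f) = dl 0 (D (n + 1) (1, f)) * dl 3 (rt (act n f)) *
      dl 4 (rt (tw (act n f))) := by
    have h3 : D (n + 1) ((1 : A), (1 : ℕ → A)) = 1 := map_one (D (n + 1))
    rw [D_eq_node, node_eq_prod]
    simp [secD, h3]
  rw [h2] at h1
  have h3 := mul_mem (mul_mem h1 (inv_mem (dl_rt_mem n 4 (tw (act n f)))))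
    (inv_mem (dl_rt_mem n 3 (act n f)))
  simpa using h3

/-- The wreath recursion, one direction. -/
theorem dl_mem {n : ℕ} (x : X) {g : Perm W} (hg : g ∈ Del (n + 1)) : dl x g ∈ Del n := by
  have key : Del (n + 1) ≤ (Del n).comap (dl x) := by
    unfold Del
    rw [Subgroup.closure_le]
    rintro g (⟨a, rfl⟩ | ⟨e, f, hf, rfl⟩)
    · exact dl_rt_mem n x a
    · obtain ⟨f', hf', h⟩ := D_split n e f hf
      change dl x (D (n + 1) (e, f)) ∈ Del n
      rw [h, map_mul, map_mul]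
      exact mul_mem (mul_mem (dl_move (dl0_mem n e) x) (dl_move (dl_thread_mem n f' hf') x))
        (dl_move (dl1_mem n (f n)) x)
  exact key hg

/-- The wreath recursion, other direction. -/
theorem sections {n : ℕ} {h : Perm W} (hh : h ∈ Del n) :
    ∃ (a : A) (s : X → Perm W), (∀ x, s x ∈ Del (n + 1)) ∧ h = rt a * node s := by
  unfold Del at hh
  induction hh using Subgroup.closure_induction with
  | mem g hg =>
    rcases hg with ⟨a, rfl⟩ | ⟨e, f, hf, rfl⟩
    · exact ⟨a, 1, fun x => one_mem _, by simp⟩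
    · refine ⟨1, secD n e f, ?_, by rw [D_eq_node]; simp⟩
      intro x
      unfold secD
      split_ifs
      · exact D_mem (fun i hi => hf i (by omega))
      · exact D_mem (fun i hi => Pi.mulSingle_eq_of_ne (by omega) _)
      · exact rt_mem _ _
      · exact rt_mem _ _
      · exact rt_mem _ _
  | one => exact ⟨1, 1, fun x => one_mem _, by simp⟩
  | mul g g' _ _ ih ih' =>
    obtain ⟨a, s, hs, rfl⟩ := ih
    obtain ⟨b, t, ht, rfl⟩ := ih'
    refine ⟨a * b, (fun x => s (b.1 x)) * t, fun x => mul_mem (hs _) (ht _), ?_⟩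
    have h1 := rt_conj_node b (fun x => s (b.1 x))
    have h2 : (fun x => (fun x => s (b.1 x)) (b.1⁻¹ x)) = s := by
      funext x; simp
    rw [h2] at h1
    rw [map_mul, map_mul, ← h1]
    group
  | inv g _ ih =>
    obtain ⟨a, s, hs, rfl⟩ := ih
    refine ⟨a⁻¹, fun x => (s (a.1⁻¹ x))⁻¹, fun x => inv_mem (hs _), ?_⟩
    have h1 := rt_conj_node a s⁻¹
    rw [map_inv] at h1
    have h2 : node (fun x => (s (a.1⁻¹ x))⁻¹) = rt a * (node s)⁻¹ * (rt a)⁻¹ := by
      rw [h1]; rfl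
    rw [h2, map_inv]
    group

end Pool.Agent.Helper581.CP
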