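import Pool.Agent.Helper581.CP.Comp

set_option autoImplicit false

namespace Pool.Agent.Helper581.CP

open Equiv
open scoped commutatorElement

/-- inverse letter -/
theorem gen_inv (n : ℕ) (b : Bool) (a : A) : gen n (b, a⁻¹) = (gen n (b, a))⁻¹ := by
  cases b
  · change D n (a⁻¹, 1) = (D n (a, 1))⁻¹
    rw [← map_inv]
    congr 1
  · exact map_inv rt a

/-- inverse word -/
def winv (l : List La) : List La := (l.map fun p => (p.1, p.2⁻¹)).reverse

theorem ev_winv (n : ℕ) (l : List La) : ev n (winv l) = (ev n l)⁻¹ := by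
  induction l with
  | nil => simp [winv, ev]
  | cons a l ih =>
    have h : winv (a :: l) = winv l ++ [(a.1, a.2⁻¹)] := by simp [winv]
    rw [h, ev_append, ih, ev_cons, ev_cons, ev_nil, mul_one, gen_inv, mul_inv_rev]

theorem perfW (φ : ℕ → A →* Perm W)
    (h : ∀ e e' : A, ∃ w : List La, ∀ n, ev n w = φ n ⁅e, e'⁆) (e : A) :
    ∃ w : List La, ∀ n, ev n w = φ n e := by
  let H : Subgroup A :=
    { carrier := {e | ∃ w : List La, ∀ n, ev n w = φ n e}
      one_mem' := ⟨[], fun n => by rw [ev_nil, map_one]⟩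
      mul_mem' := by
        rintro a b ⟨w, hw⟩ ⟨w', hw'⟩
        exact ⟨w ++ w', fun n => by rw [ev_append, hw, hw', map_mul]⟩
      inv_mem' := by
        rintro a ⟨w, hw⟩
        exact ⟨winv w, fun n => by rw [ev_winv, hw, map_inv]⟩ }
  have h1 : commutator A ≤ H := by
    rw [commutator_def, Subgroup.commutator_le]
    intro a _ b _
    exact h a b
  rw [commutator_A] at h1
  exact h1 (Subgroup.mem_top e)

/-- commutator words -/
def cw (s e e' : A) : List La :=
  [(false, e), (true, s), (false, e'), (true, s⁻¹), (false, e⁻¹),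
    (true, s), (false, e'⁻¹), (true, s⁻¹)]

theorem ev_cw (n : ℕ) (s e e' : A) :
    ev n (cw s e e') = ⁅D n (e, 1), rt s * D n (e', 1) * (rt s)⁻¹⁆ := by
  have h1 : ∀ e : A, gen n (false, e) = D n (e, 1) := fun _ => rfl
  have h2 : ∀ e : A, gen n (true, e) = rt e := fun _ => rfl
  have h3 : ∀ e : A, D n (e⁻¹, 1) = (D n (e, 1))⁻¹ := fun e => gen_inv n false e
  have h4 : ∀ e : A, rt e⁻¹ = (rt e)⁻¹ := fun e => map_inv rt e
  unfold cw
  simp only [ev_cons, ev_nil, h1, h2, h3, h4, commutatorElement_def]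
  simp only [mul_inv_rev, inv_inv, mul_one, mul_assoc]

theorem word0 (e : A) : ∃ w : List La, ∀ n, ev n w = dl 0 (D (n + 1) (e, 1)) :=
  perfW (fun n => (dl 0).comp ((D (n + 1)).comp (MonoidHom.inl A (ℕ → A))))
    (fun a b => ⟨cw s0 a b, fun n => by rw [ev_cw, comm0]; rfl⟩) e

theorem word1 (e : A) : ∃ w : List La, ∀ n, ev n w = dl 1 (T (n + 1) n e) :=
  perfW (fun n => (dl 1).comp (T (n + 1) n))
    (fun a b => ⟨cw s1 a b, fun n => by rw [ev_cw, comm1]; rfl⟩) e

theorem word2 (e : A) : ∃ w : List La, ∀ n, ev n w = dl 2 (rt e) :=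
  perfW (fun _ => (dl 2).comp rt)
    (fun a b => ⟨cw s2 a b, fun n => by rw [ev_cw, comm2]; rfl⟩) e

theorem word3 (e : A) : ∃ w : List La, ∀ n, ev n w = dl 0 (rt e) := by
  obtain ⟨a, ha⟩ := exists_move 2 0
  obtain ⟨w, hw⟩ := word2 e
  refine ⟨[(true, a)] ++ w ++ [(true, a⁻¹)], fun n => ?_⟩
  rw [ev_append, ev_append, hw]
  simp only [ev_cons, ev_nil, mul_one, gen_inv]
  change rt a * dl 2 (rt e) * (rt a)⁻¹ = _
  rw [dl_conj, ha]

theorem exists_sub : ∃ φ : La → List La, ∀ (l : La) (n : ℕ), ev n (φ l) = dl 0 (gen (n + 1) l) := by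
  have h : ∀ l : La, ∃ w : List La, ∀ n, ev n w = dl 0 (gen (n + 1) l) := by
    rintro ⟨b, e⟩
    cases b
    · exact word0 e
    · exact word3 e
  choose φ hφ using h
  exact ⟨φ, hφ⟩

noncomputable def phi : La → List La := exists_sub.choose

theorem phi_spec (l : La) (n : ℕ) : ev n (phi l) = dl 0 (gen (n + 1) l) :=
  exists_sub.choose_spec l n

theorem ev_flatMap_phi (n : ℕ) (l : List La) : ev n (l.flatMap phi) = dl 0 (ev (n + 1) l) := by
  induction l with
  | nil => simp [ev]
  | cons a l ih => rw [List.flatMap_cons, ev_append, ih, phi_spec, ev_cons, map_mul]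

noncomputable def lift (l : List La) (k : ℕ) : List La :=
  Nat.rec l (fun _ L => L.flatMap phi) k

theorem ev_lift (l : List La) (k : ℕ) : ∀ n, ev n (lift l k) = dpath (List.replicate k 0) (ev (n + k) l) := by
  induction k with
  | zero => intro n; rfl
  | succ k ih =>
    intro n
    have h : lift l (k + 1) = (lift l k).flatMap phi := rfl
    rw [h, ev_flatMap_phi, ih, List.replicate_succ, show n + 1 + k = n + (k + 1) by omega]
    rfl

theorem primrec_lift (l : List La) : Primrec (lift l) := by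
  unfold lift
  refine Primrec.nat_rec₁ _ ?_
  exact Primrec.list_flatMap Primrec.snd ((Primrec.dom_finite phi).comp₂ Primrec₂.right)

theorem dpath_append_path (v u : W) (g : Perm W) : dpath (v ++ u) g = dpath v (dpath u g) := by
  induction v with
  | nil => rfl
  | cons x v ih =>
    change dl x (dpath (v ++ u) g) = dl x (dpath v (dpath u g))
    rw [ih]

/-- the words of the reduction -/
noncomputable def wd (e : A) (k : ℕ) : List La := lift (word1 e).choose k

theorem ev_wd (e : A) (k : ℕ) :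
    ev 0 (wd e k) = dpath (List.replicate k 0 ++ [1]) (T (k + 1) k e) := by
  unfold wd
  rw [ev_lift, (word1 e).choose_spec, zero_add, dpath_append_path]
  rfl

theorem primrec_wd (e : A) : Primrec (wd e) := primrec_lift _

open scoped Pointwise in
theorem Del_U {n : ℕ} {g : Perm W} (hg : g ∈ Del n) : ∃ m, g ∈ (U n) ^ (m + 1) := by
  have hinv : (U n)⁻¹ = U n := by
    have h1 : ∀ g : Perm W, g ∈ U n → g⁻¹ ∈ U n := by
      rintro _ ⟨a, b, y, ⟨e, f, hf, rfl⟩, rfl⟩
      refine ⟨b⁻¹, a⁻¹, (D n (e, f))⁻¹, ⟨e⁻¹, f⁻¹, fun i hi => by simp [hf i hi], ?_⟩, ?_⟩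
      · rw [← map_inv]; rfl
      · rw [map_inv, map_inv]; group
    ext g
    rw [Set.mem_inv]
    exact ⟨fun h => by simpa using h1 _ h, fun h => h1 _ h⟩
  have key : ∃ m, g ∈ (U n) ^ m := by
    unfold Del at hg
    induction hg using Subgroup.closure_induction with
    | mem g hg =>
      refine ⟨1, ?_⟩
      rw [pow_one]
      rcases hg with ⟨a, rfl⟩ | hg
      · exact rt_U n a
      · exact Bset_U hg
    | one => exact ⟨0, by simp⟩
    | mul g h _ _ ihg ihh =>
      obtain ⟨a, ha⟩ := ihg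
      obtain ⟨b, hb⟩ := ihh
      exact ⟨a + b, by rw [pow_add]; exact Set.mul_mem_mul ha hb⟩
    | inv g _ ih =>
      obtain ⟨a, ha⟩ := ih
      refine ⟨a, ?_⟩
      rw [← hinv, inv_pow, Set.mem_inv, inv_inv]
      exact ha
  obtain ⟨m, hm⟩ := key
  exact ⟨m, Set.pow_subset_pow_right (one_mem_U n) (Nat.le_succ m) hm⟩

/-- conjugacy of elements supported below one vertex -/
theorem conj_dpath {v : W} {g g' h : Perm W} (hg : g ≠ 1) (hh : h ∈ Del 0)
    (hc : h * dpath v g = dpath v g' * h) : ∃ s ∈ Del v.length, s * g = g' * s := by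
  obtain ⟨w, s, hw, hs, hsg⟩ := Del_path v hh
  rw [zero_add] at hs
  have key : ∀ u : W, w ++ s (g u) = dpath v g' (w ++ s u) := by
    intro u
    have h1 := congrArg (fun f : Perm W => f (v ++ u)) hc
    simp only [Perm.mul_apply, dpath_append, hsg] at h1
    exact h1
  by_cases hwv : w = v
  · subst hwv
    refine ⟨s, hs, ?_⟩
    ext u : 1
    have h1 := key u
    rw [dpath_append] at h1
    exact (List.append_inj h1 rfl).2
  · exfalso
    apply hg
    ext u : 1
    have h1 := key u
    rw [dpath_not_prefix] at h1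
    · exact s.injective (List.append_inj h1 rfl).2
    · intro hp
      apply hwv
      have h2 : v <+: w := List.prefix_of_prefix_length_le hp (List.prefix_append w (s u)) hw.ge
      exact (h2.eq_of_length hw.symm).symm

end Pool.Agent.Helper581.CP
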